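import Pool.Agent.H66.AV.TF

/-!
# WLC: the weights of the blocks of small scale depend only on the short strings (helper64)
-/

set_option autoImplicit false

namespace Pool.Agent.H64.AVH

open Finset Pool.Agent.H6.NB Pool.Agent.H70.OQ Pool.Agent.H70.EH Pool.Agent.H70.EI Pool.Agent.H78.XQ
open Pool.Agent.H66.IP (Local ins sp dm Good IsZ scl mBp m0p)
open Pool.Agent.H66.IQ
open Pool.Agent.H75.OM (BPos)
open Pool.Agent.H66.AV

theorem pf_WLC (hIZU : Pool.Agent.H66.IP.T_IZU) : T_WLC := by
  classical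
  intro V E O hO n g g' hg P
  unfold Pool.Agent.H66.AV.wgt
  refine prod_congr rfl fun p _ => ?_
  by_cases h : scl V p.1 ≤ n
  · rw [if_pos h, if_pos h]
    have key : (V p.1.1).acc p.1.2 (O P g) ↔ (V p.1.1).acc p.1.2 (O P g') := by
      refine (V p.1.1).loc _ _ _ fun w hw => ?_
      refine (hIZU (dm V) E O hO).2 P g g' w (hg w (hw.trans ?_))
      unfold scl at h
      omega
    have key2 : decide ((V p.1.1).acc p.1.2 (O P g)) = decide ((V p.1.1).acc p.1.2 (O P g')) :=
      decide_eq_decide.2 key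
    rw [key2]
  · rw [if_neg h, if_neg h]

end Pool.Agent.H64.AVH
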